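import Pool.Agent.helper56.P2.SpecU
import Pool.Agent.helper92.SJ.ZB1

set_option autoImplicit false

namespace Pool.Agent.P2U

open MeasureTheory Set Filter Topology Metric Complex
open scoped ENNReal ContDiff

lemma ULWX_der (P Q : ℂ × ℂ → ℂ) (r : ℝ) (hr : 0 < r) (h : Hol P Q 2 r) (x : ℂ) (hx : ‖x‖ < 2) :
    HasDerivAt (fun x : ℂ => Q (x, 0)) (dx Q (x, 0)) x := by
  have hp : (x, (0 : ℂ)) ∈ TB 2 r := ⟨hx, by simpa using hr⟩
  have h1 : HasFDerivAt Q (fderiv ℂ Q (x, 0)) (x, 0) := (h.hQ _ hp).differentiableAt.hasFDerivAt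
  have h2 : HasFDerivAt (fun x : ℂ => (x, (0 : ℂ))) (ContinuousLinearMap.inl ℂ ℂ ℂ) x :=
    hasFDerivAt_prodMk_left x 0
  have h3 := h1.comp x h2
  have h4 : HasDerivAt (fun x : ℂ => Q (x, 0)) ((fderiv ℂ Q (x, 0)).comp (ContinuousLinearMap.inl ℂ ℂ ℂ) 1) x :=
    h3.hasDerivAt
  refine h4.congr_deriv ?_
  simp [dx]

lemma ULWX_null (P Q : ℂ × ℂ → ℂ) (r : ℝ) (hr : 0 < r) (h : Hol P Q 2 r) :
    volume {x : ℂ | ‖x‖ < 2 ∧ cx P Q (x, 0) ≠ 0 ∧ Q (x, 0) = 0} = 0 := by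
  apply Set.Countable.measure_zero
  have hd : DiscreteTopology {x : ℂ | ‖x‖ < 2 ∧ cx P Q (x, 0) ≠ 0 ∧ Q (x, 0) = 0} := by
    rw [discreteTopology_subtype_iff]
    intro x hx
    obtain ⟨h1, h2, h3⟩ := hx
    have hd := ULWX_der P Q r hr h x h1
    have hne : dx Q (x, 0) ≠ 0 := by
      intro h0
      apply h2
      unfold cx
      rw [h3, h0]
      ring
    have hev := hd.eventually_ne (c := 0) hne
    rw [← disjoint_iff, Filter.disjoint_principal_right]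
    filter_upwards [hev] with y hy hy2
    exact hy hy2.2.2
  have hc := (TopologicalSpace.separableSpace_iff_countable
    (α := {x : ℂ | ‖x‖ < 2 ∧ cx P Q (x, 0) ≠ 0 ∧ Q (x, 0) = 0})).mp inferInstance
  exact hc

theorem ULWX (hJAC : UJAC_stmt) : ULWX_stmt := by
  intro P Q r hr h S hS hSx
  classical
  have hopen : IsOpen {x : ℂ | ‖x‖ < 2 ∧ Q (x, 0) ≠ 0} := by
    have h1 : ContinuousOn (fun x : ℂ => Q (x, 0)) (ball 0 2) := by
      intro x hx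
      rw [mem_ball_zero_iff] at hx
      exact (ULWX_der P Q r hr h x hx).continuousAt.continuousWithinAt
    have h2 := h1.isOpen_inter_preimage isOpen_ball (isOpen_compl_singleton (x := (0 : ℂ)))
    have h3 : {x : ℂ | ‖x‖ < 2 ∧ Q (x, 0) ≠ 0} = ball 0 2 ∩ (fun x : ℂ => Q (x, 0)) ⁻¹' {0}ᶜ := by
      ext x
      simp
    rw [h3]
    exact h2
  obtain ⟨S', hS'⟩ : ∃ S' : Set ℂ, S' = S ∩ {x : ℂ | ‖x‖ < 2 ∧ Q (x, 0) ≠ 0} := ⟨_, rfl⟩
  have hS'm : MeasurableSet S' := by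
    rw [hS']
    exact hS.inter hopen.measurableSet
  have hS'1 : ∀ x ∈ S', x ∈ S ∧ ‖x‖ < 2 ∧ Q (x, 0) ≠ 0 := by
    intro x hx
    rw [hS'] at hx
    exact ⟨hx.1, hx.2.1, hx.2.2⟩
  have hj : ∀ x ∈ S', ∃ A : ℂ →L[ℝ] ℂ, HasFDerivAt (fun x : ℂ => P (x, 0) / Q (x, 0)) A x ∧
      |A.det| = ‖cx P Q (x, 0)‖ ^ 2 / ‖Q (x, 0)‖ ^ 4 := by
    intro x hx
    obtain ⟨h1, h2, h3⟩ := hS'1 x hx
    exact (hJAC P Q 2 r h (x, 0) ⟨h2, by simpa using hr⟩ h3).2.2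
  choose A hA using hj
  let F' : ℂ → ℂ →L[ℝ] ℂ := fun x => if hx : x ∈ S' then A x hx else 0
  have hF' : ∀ x ∈ S', HasFDerivAt (fun x : ℂ => P (x, 0) / Q (x, 0)) (F' x) x ∧
      |(F' x).det| = ‖cx P Q (x, 0)‖ ^ 2 / ‖Q (x, 0)‖ ^ 4 := by
    intro x hx
    simp only [F', dif_pos hx]
    exact hA x hx
  have hgm : Measurable gz := by
    unfold gz
    apply Measurable.ennreal_ofReal
    have h1 : Continuous fun z : ℂ => ((1 + ‖z‖ ^ 2) ^ 2 : ℝ) := by fun_prop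
    exact h1.measurable.inv
  have hdet : ∀ x ∈ S', (F' x).det ≠ 0 := by
    intro x hx h0
    have h1 := (hF' x hx).2
    rw [h0, abs_zero] at h1
    obtain ⟨h2, h3, h4⟩ := hS'1 x hx
    have h5 : 0 < ‖cx P Q (x, 0)‖ := norm_pos_iff.mpr (hSx x h2).2
    have h6 : 0 < ‖Q (x, 0)‖ := norm_pos_iff.mpr h4
    have h7 : 0 < ‖cx P Q (x, 0)‖ ^ 2 / ‖Q (x, 0)‖ ^ 4 := by positivity
    linarith
  have key := (Pool.Agent.HC.SJ.ZB1_area volume (fun x : ℂ => P (x, 0) / Q (x, 0)) F' S' hS'm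
    (fun x hx => (hF' x hx).1.hasFDerivWithinAt) hdet gz hgm).1
  have hae : S =ᵐ[volume] S' := by
    rw [ae_eq_set]
    constructor
    · apply measure_mono_null _ (ULWX_null P Q r hr h)
      intro x hx
      obtain ⟨h1, h2⟩ := hx
      have h3 := hSx x h1
      refine ⟨by linarith [h3.1], h3.2, ?_⟩
      by_contra h4
      apply h2
      rw [hS']
      exact ⟨h1, by linarith [h3.1], h4⟩
    · have h1 : S' \ S = ∅ := by
        rw [Set.sdiff_eq_empty]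
        exact fun x hx => (hS'1 x hx).1
      rw [h1]
      simp
  rw [setLIntegral_congr hae]
  have e1 : ∫⁻ x in S', ENNReal.ofReal (‖cx P Q (x, 0)‖ ^ 2 * om P Q (x, 0)) =
      ∫⁻ c in S', ENNReal.ofReal |(F' c).det| * gz (P (c, 0) / Q (c, 0)) := by
    apply setLIntegral_congr_fun hS'm
    intro x hx
    obtain ⟨h2, h3, h4⟩ := hS'1 x hx
    have h6 : 0 < ‖Q (x, 0)‖ := norm_pos_iff.mpr h4
    simp only
    rw [(hF' x hx).2]
    unfold gz om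
    rw [← ENNReal.ofReal_mul (by positivity), norm_div]
    congr 1
    field_simp
    ring
  rw [e1, key]
  apply lintegral_congr
  intro ζ
  unfold cnt
  congr 4
  ext x
  constructor
  · rintro ⟨h1, h2⟩
    obtain ⟨h3, h4, h5⟩ := hS'1 x h1
    refine ⟨h3, ?_⟩
    rw [← h2]
    field_simp
  · rintro ⟨h1, h2⟩
    have h3 := hSx x h1
    have hp : (x, (0 : ℂ)) ∈ TB 2 r := ⟨by show ‖x‖ < 2; linarith [h3.1], by simpa using hr⟩
    have h4 : Q (x, 0) ≠ 0 := by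
      intro h5
      rw [h5, mul_zero] at h2
      rcases h.ne _ hp with h6 | h6
      · exact h6 h2
      · exact h6 h5
    refine ⟨?_, ?_⟩
    · rw [hS']
      exact ⟨h1, hp.1, h4⟩
    · show P (x, 0) / Q (x, 0) = ζ
      rw [h2]
      field_simp

end Pool.Agent.P2U
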