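import Pool.Agent.helper37.P2.SpecA

set_option autoImplicit false

open scoped ContDiff Topology
open MeasureTheory Filter Set Metric MvPolynomial Pool.Agent.helper37.QA

namespace Pool.Agent.P2

lemma INTB_two : (2 : WithTop ℕ∞) ≤ ∞ := by
  show ((2 : ℕ∞) : WithTop ℕ∞) ≤ ((⊤ : ℕ∞) : WithTop ℕ∞)
  exact WithTop.coe_le_coe.mpr le_top

/-- the Levi form through the Hessian -/
lemma INTB_hess {V : Type} [NormedAddCommGroup V] [NormedSpace ℂ V] [NormedSpace ℝ V] [IsScalarTower ℝ ℂ V]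
    (g : V → ℝ) (p a : V) (hg : ContDiffAt ℝ 2 g p) :
    lev g p a = (1 / 4) * (fderiv ℝ (fderiv ℝ g) p a a + fderiv ℝ (fderiv ℝ g) p (Complex.I • a) (Complex.I • a)) := by
  let T : ℂ →L[ℝ] V := (ContinuousLinearMap.toSpanSingleton ℂ a).restrictScalars ℝ
  have hT : ∀ t, T t = t • a := fun t => by simp [T]
  have hh : ∀ t : ℂ, HasFDerivAt (fun t : ℂ => p + t • a) T t := by
    intro t
    have h1 : HasFDerivAt (fun t : ℂ => p + T t) T t := T.hasFDerivAt.const_add p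
    have h2 : (fun t : ℂ => p + T t) = fun t : ℂ => p + t • a := by
      funext t
      rw [hT]
    rw [h2] at h1
    exact h1
  have hh0 : (fun t : ℂ => p + t • a) 0 = p := by simp
  have hev : ∀ᶠ t in 𝓝 (0 : ℂ), ContDiffAt ℝ 2 g (p + t • a) := by
    have h1 := hg.eventually (by simp)
    have h2 : Tendsto (fun t : ℂ => p + t • a) (𝓝 0) (𝓝 p) := by
      have h3 := (hh 0).continuousAt.tendsto
      rw [zero_smul, add_zero] at h3
      exact h3
    exact h2.eventually h1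
  have hfd : fderiv ℝ (fun t : ℂ => g (p + t • a)) =ᶠ[𝓝 0] fun t => (fderiv ℝ g (p + t • a)).comp T := by
    filter_upwards [hev] with t ht
    have h1 : HasFDerivAt g (fderiv ℝ g (p + t • a)) (p + t • a) := (ht.differentiableAt (by simp)).hasFDerivAt
    exact (h1.comp t (hh t)).fderiv
  have hD : DifferentiableAt ℝ (fderiv ℝ g) p := (hg.fderiv_right (m := 1) (by norm_num)).differentiableAt (by simp)
  have hD2 : HasFDerivAt (fun t : ℂ => fderiv ℝ g (p + t • a)) ((fderiv ℝ (fderiv ℝ g) p).comp T) 0 := by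
    have h1 : HasFDerivAt (fderiv ℝ g) (fderiv ℝ (fderiv ℝ g) p) ((fun t : ℂ => p + t • a) 0) := by
      rw [hh0]
      exact hD.hasFDerivAt
    exact h1.comp (0 : ℂ) (hh 0)
  have key : ∀ v w : ℂ, fderiv ℝ (fderiv ℝ (fun t : ℂ => g (p + t • a))) 0 v w =
      fderiv ℝ (fderiv ℝ g) p (v • a) (w • a) := by
    intro v w
    rw [hfd.fderiv_eq]
    have h1 : HasFDerivAt (fun t : ℂ => (fderiv ℝ g (p + t • a)).comp T)
        ((((ContinuousLinearMap.compL ℝ ℂ V ℝ).flip T)).comp ((fderiv ℝ (fderiv ℝ g) p).comp T)) 0 :=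
      ((ContinuousLinearMap.compL ℝ ℂ V ℝ).flip T).hasFDerivAt.comp (0 : ℂ) hD2
    rw [h1.fderiv]
    simp [hT]
  unfold lev lap
  rw [iteratedFDeriv_two_apply, iteratedFDeriv_two_apply]
  simp only [Matrix.cons_val_zero, Matrix.cons_val_one]
  rw [key, key, one_smul]

lemma INTB_lap (g : ℂ → ℝ) (z : ℂ) : lap g z =
    (1 / 4) * (fderiv ℝ (fderiv ℝ g) z 1 1 + fderiv ℝ (fderiv ℝ g) z Complex.I Complex.I) := by
  unfold lap
  rw [iteratedFDeriv_two_apply, iteratedFDeriv_two_apply]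
  simp

/-- affine substitution in one variable -/
lemma INTB_lapc (g : ℂ → ℝ) (z c : ℂ) (hg : ContDiffAt ℝ 2 g z) (hc : c = 0 ∨ c = 1 ∨ c = Complex.I) :
    lap (fun t => g (z + t * c)) 0 = Complex.normSq c * lap g z := by
  have h := INTB_hess g z c hg
  unfold lev at h
  simp only [smul_eq_mul] at h
  rw [h, INTB_lap]
  rcases hc with hc | hc | hc
  · subst hc
    simp
  · subst hc
    simp
  · subst hc
    have : Complex.I * Complex.I = (-1 : ℂ) := Complex.I_mul_I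
    rw [this]
    simp only [map_neg, _root_.neg_apply, neg_neg, Complex.normSq_I, one_mul]
    ring

lemma INTB_cont {V : Type} [NormedAddCommGroup V] [NormedSpace ℂ V] [NormedSpace ℝ V] [IsScalarTower ℝ ℂ V]
    (g : V → ℝ) (Ω : Set V) (hΩ : IsOpen Ω) (hg : ContDiffOn ℝ ∞ g Ω) (a : V) :
    ContinuousOn (fun p => lev g p a) Ω := by
  have h1 : ContDiffOn ℝ ∞ (fderiv ℝ g) Ω := hg.fderiv_of_isOpen hΩ (by simp)
  have h2 : ContDiffOn ℝ ∞ (fderiv ℝ (fderiv ℝ g)) Ω := h1.fderiv_of_isOpen hΩ (by simp)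
  have h3 := h2.continuousOn
  have h4 : ContinuousOn (fun p => (1 / 4 : ℝ) * (fderiv ℝ (fderiv ℝ g) p a a +
      fderiv ℝ (fderiv ℝ g) p (Complex.I • a) (Complex.I • a))) Ω := by
    have h5 : ∀ v, ContinuousOn (fun p => fderiv ℝ (fderiv ℝ g) p v v) Ω :=
      fun v => (h3.clm_apply continuousOn_const).clm_apply continuousOn_const
    exact continuousOn_const.mul ((h5 a).add (h5 _))
  refine h4.congr (fun p hp => ?_)
  exact INTB_hess g p a ((hg.contDiffAt (hΩ.mem_nhds hp)).of_le INTB_two)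

lemma INTB_lapadd (f g : ℂ → ℝ) (z : ℂ) (hf : ContDiffAt ℝ 2 f z) (hg : ContDiffAt ℝ 2 g z) :
    lap (fun q => f q + g q) z = lap f z + lap g z := by
  unfold lap
  have h := fun_iteratedFDeriv_add_apply (i := 2) (x := z) (by exact_mod_cast hf) (by exact_mod_cast hg)
  rw [h]
  simp only [_root_.add_apply]
  ring

lemma INTB_lapsub (f g : ℂ → ℝ) (z : ℂ) (hf : ContDiffAt ℝ 2 f z) (hg : ContDiffAt ℝ 2 g z) :
    lap (fun q => f q - g q) z = lap f z - lap g z := by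
  unfold lap
  have h := fun_iteratedFDeriv_sub_apply (i := 2) (x := z) (by exact_mod_cast hf) (by exact_mod_cast hg)
  rw [h]
  simp only [_root_.sub_apply]
  ring

lemma INTB_lapmul (c : ℝ) (f : ℂ → ℝ) (z : ℂ) (hf : ContDiffAt ℝ 2 f z) :
    lap (fun q => f q * c) z = lap f z * c := by
  unfold lap
  have h := iteratedFDeriv_const_smul_apply' (i := 2) (x := z) (a := c) (by exact_mod_cast hf)
  have h2 : (fun q => f q * c) = fun q => c • f q := by
    funext q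
    rw [smul_eq_mul, mul_comm]
  rw [h2, h]
  simp only [_root_.smul_apply, smul_eq_mul]
  ring

lemma INTB_lapconst (c : ℝ) (z : ℂ) : lap (fun _ => c) z = 0 := by
  rw [INTB_lap]
  simp

lemma INTB_line (g : ℂ × ℂ → ℝ) (p a : ℂ × ℂ) (hg : ContDiffAt ℝ 2 g p) :
    ContDiffAt ℝ 2 (fun t : ℂ => g (p + t • a)) 0 := by
  have h1 : ContDiffAt ℝ 2 (fun t : ℂ => p + t • a) 0 := by
    apply ContDiff.contDiffAt
    exact contDiff_const.add (contDiff_id.smul contDiff_const)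
  have h2 : ContDiffAt ℝ 2 g ((fun t : ℂ => p + t • a) 0) := by
    simpa using hg
  exact h2.comp (0 : ℂ) h1

lemma INTB_levadd (f g : ℂ × ℂ → ℝ) (p a : ℂ × ℂ) (hf : ContDiffAt ℝ 2 f p) (hg : ContDiffAt ℝ 2 g p) :
    lev (fun q => f q + g q) p a = lev f p a + lev g p a :=
  INTB_lapadd _ _ 0 (INTB_line f p a hf) (INTB_line g p a hg)

lemma INTB_levsub (f g : ℂ × ℂ → ℝ) (p a : ℂ × ℂ) (hf : ContDiffAt ℝ 2 f p) (hg : ContDiffAt ℝ 2 g p) :
    lev (fun q => f q - g q) p a = lev f p a - lev g p a :=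
  INTB_lapsub _ _ 0 (INTB_line f p a hf) (INTB_line g p a hg)

lemma INTB_line1 (g : ℂ → ℝ) (z c : ℂ) (hg : ContDiffAt ℝ 2 g z) :
    ContDiffAt ℝ 2 (fun t : ℂ => g (z + t * c)) 0 := by
  have h1 : ContDiffAt ℝ 2 (fun t : ℂ => z + t * c) 0 := by
    apply ContDiff.contDiffAt
    exact contDiff_const.add (contDiff_id.mul contDiff_const)
  have h2 : ContDiffAt ℝ 2 g ((fun t : ℂ => z + t * c) 0) := by
    simpa using hg
  exact h2.comp (0 : ℂ) h1

lemma INTB_levA (a b : ℂ → ℝ) (p : ℂ × ℂ) (α β : ℂ) (hα : α = 0 ∨ α = 1 ∨ α = Complex.I)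
    (hβ : β = 0 ∨ β = 1 ∨ β = Complex.I) (ha : ContDiffAt ℝ 2 a p.1) (hb : ContDiffAt ℝ 2 b p.2) :
    lev (fun q : ℂ × ℂ => a q.1 + b q.2) p (α, β) = Complex.normSq α * lap a p.1 + Complex.normSq β * lap b p.2 := by
  have h := INTB_lapadd (fun t : ℂ => a (p.1 + t * α)) (fun t : ℂ => b (p.2 + t * β)) 0 (INTB_line1 a _ _ ha)
    (INTB_line1 b _ _ hb)
  rw [INTB_lapc a _ _ ha hα, INTB_lapc b _ _ hb hβ] at h
  exact h

/-- values for `A(p) = a(p.1) + b(p.2)` -/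
lemma INTB_A (a b : ℂ → ℝ) (p : ℂ × ℂ) (ha : ContDiffAt ℝ 2 a p.1) (hb : ContDiffAt ℝ 2 b p.2) :
    lev (fun q : ℂ × ℂ => a q.1 + b q.2) p (1, 0) = lap a p.1 ∧
    lev (fun q : ℂ × ℂ => a q.1 + b q.2) p (0, 1) = lap b p.2 ∧
    lre (fun q : ℂ × ℂ => a q.1 + b q.2) p = 0 ∧ lim (fun q : ℂ × ℂ => a q.1 + b q.2) p = 0 := by
  have h1 := INTB_levA a b p 1 0 (by simp) (by simp) ha hb
  have h2 := INTB_levA a b p 0 1 (by simp) (by simp) ha hb
  have h3 := INTB_levA a b p 1 1 (by simp) (by simp) ha hb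
  have h4 := INTB_levA a b p 1 Complex.I (by simp) (by simp) ha hb
  simp only [map_one, map_zero, Complex.normSq_I] at h1 h2 h3 h4
  refine ⟨by rw [h1]; ring, by rw [h2]; ring, ?_, ?_⟩
  · unfold lre
    rw [h1, h2, h3]
    ring
  · unfold lim
    rw [h1, h2, h4]
    ring

lemma INTB_lapnormSq (z : ℂ) : lap (fun w => Complex.normSq w) z = 1 := by
  have h1 : ∀ w : ℂ, HasFDerivAt (fun w : ℂ => Complex.normSq w)
      ((2 * w.re) • Complex.reCLM + (2 * w.im) • Complex.imCLM) w := by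
    intro w
    have h2 : (fun w : ℂ => Complex.normSq w) = fun w : ℂ => w.re * w.re + w.im * w.im := by
      funext w
      exact Complex.normSq_apply w
    rw [h2]
    have h3 : HasFDerivAt (fun w : ℂ => w.re) Complex.reCLM w := Complex.reCLM.hasFDerivAt
    have h4 : HasFDerivAt (fun w : ℂ => w.im) Complex.imCLM w := Complex.imCLM.hasFDerivAt
    have h5 := (h3.mul h3).add (h4.mul h4)
    refine h5.congr_fderiv ?_
    ext <;> simp <;> ring
  have h2 : fderiv ℝ (fun w : ℂ => Complex.normSq w) = fun w => (2 * w.re) • Complex.reCLM + (2 * w.im) • Complex.imCLM := by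
    funext w
    exact (h1 w).fderiv
  have h3 : HasFDerivAt (fun w : ℂ => (2 * w.re) • Complex.reCLM + (2 * w.im) • Complex.imCLM)
      (((2 : ℝ) • Complex.reCLM).smulRight Complex.reCLM + ((2 : ℝ) • Complex.imCLM).smulRight Complex.imCLM) z := by
    have h4 : HasFDerivAt (fun w : ℂ => 2 * w.re) ((2 : ℝ) • Complex.reCLM) z := Complex.reCLM.hasFDerivAt.const_mul 2
    have h5 : HasFDerivAt (fun w : ℂ => 2 * w.im) ((2 : ℝ) • Complex.imCLM) z := Complex.imCLM.hasFDerivAt.const_mul 2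
    have h6 : HasFDerivAt (fun w : ℂ => (2 * w.re) • Complex.reCLM)
        (((2 : ℝ) • Complex.reCLM).smulRight Complex.reCLM) z := h4.smul_const Complex.reCLM
    have h7 : HasFDerivAt (fun w : ℂ => (2 * w.im) • Complex.imCLM)
        (((2 : ℝ) • Complex.imCLM).smulRight Complex.imCLM) z := h5.smul_const Complex.imCLM
    exact h6.add h7
  rw [INTB_lap, h2, h3.fderiv]
  simp
  norm_num

lemma INTB_N2 (p : ℂ × ℂ) : lev (fun q : ℂ × ℂ => Complex.normSq q.2) p (1, 0) = 0 ∧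
    lev (fun q : ℂ × ℂ => Complex.normSq q.2) p (0, 1) = 1 ∧
    lre (fun q : ℂ × ℂ => Complex.normSq q.2) p = 0 ∧ lim (fun q : ℂ × ℂ => Complex.normSq q.2) p = 0 := by
  have hs : ContDiffAt ℝ 2 (fun w => Complex.normSq w) p.2 := by
    have h2 : (fun w : ℂ => Complex.normSq w) = fun w : ℂ => w.re * w.re + w.im * w.im := by
      funext w
      exact Complex.normSq_apply w
    rw [h2]
    apply ContDiff.contDiffAt
    exact (Complex.reCLM.contDiff.mul Complex.reCLM.contDiff).add (Complex.imCLM.contDiff.mul Complex.imCLM.contDiff)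
  have h := INTB_A (fun _ => 0) (fun w => Complex.normSq w) p contDiffAt_const hs
  rw [INTB_lapconst, INTB_lapnormSq] at h
  have e : (fun q : ℂ × ℂ => (0 : ℝ) + Complex.normSq q.2) = fun q : ℂ × ℂ => Complex.normSq q.2 := by
    funext q
    ring
  rw [e] at h
  exact h

lemma INTB_N1 (p : ℂ × ℂ) : lev (fun q : ℂ × ℂ => Complex.normSq q.1) p (1, 0) = 1 ∧
    lev (fun q : ℂ × ℂ => Complex.normSq q.1) p (0, 1) = 0 ∧
    lre (fun q : ℂ × ℂ => Complex.normSq q.1) p = 0 ∧ lim (fun q : ℂ × ℂ => Complex.normSq q.1) p = 0 := by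
  have hs : ContDiffAt ℝ 2 (fun w => Complex.normSq w) p.1 := by
    have h2 : (fun w : ℂ => Complex.normSq w) = fun w : ℂ => w.re * w.re + w.im * w.im := by
      funext w
      exact Complex.normSq_apply w
    rw [h2]
    apply ContDiff.contDiffAt
    exact (Complex.reCLM.contDiff.mul Complex.reCLM.contDiff).add (Complex.imCLM.contDiff.mul Complex.imCLM.contDiff)
  have h := INTB_A (fun w => Complex.normSq w) (fun _ => 0) p hs contDiffAt_const
  rw [INTB_lapconst, INTB_lapnormSq] at h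
  have e : (fun q : ℂ × ℂ => Complex.normSq q.1 + (0 : ℝ)) = fun q : ℂ × ℂ => Complex.normSq q.1 := by
    funext q
    ring
  rw [e] at h
  exact h

lemma INTB_smooth : ContDiff ℝ ∞ (fun q : ℂ × ℂ => Complex.normSq q.1) ∧
    ContDiff ℝ ∞ (fun q : ℂ × ℂ => Complex.normSq q.2) := by
  have h0 : ContDiff ℝ ∞ (fun w : ℂ => Complex.normSq w) := by
    have h2 : (fun w : ℂ => Complex.normSq w) = fun w : ℂ => w.re * w.re + w.im * w.im := by
      funext w
      exact Complex.normSq_apply w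
    rw [h2]
    exact (Complex.reCLM.contDiff.mul Complex.reCLM.contDiff).add (Complex.imCLM.contDiff.mul Complex.imCLM.contDiff)
  exact ⟨h0.comp contDiff_fst, h0.comp contDiff_snd⟩

/-- integration by parts in one of the two variables -/
lemma INTB_ibp (hSTO : STO_stmt) (Ω : Set (ℂ × ℂ)) (κ G : ℂ × ℂ → ℝ) (hΩ : IsOpen Ω) (hκ : ContDiff ℝ ∞ κ)
    (hc : HasCompactSupport κ) (hs : tsupport κ ⊆ Ω) (hG : ContDiffOn ℝ ∞ G Ω) :
    ∫ p, κ p * lev G p (1, 0) = ∫ p, G p * lev κ p (1, 0) ∧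
    ∫ p, κ p * lev G p (0, 1) = ∫ p, G p * lev κ p (0, 1) := by
  constructor
  · have h := hSTO Ω κ G (fun q => Complex.normSq q.2) hΩ hκ hc hs hG INTB_smooth.2.contDiffOn
    have e : ∀ (F : ℂ × ℂ → ℝ) (p : ℂ × ℂ), MA F (fun q => Complex.normSq q.2) p = lev F p (1, 0) := by
      intro F p
      obtain ⟨h1, h2, h3, h4⟩ := INTB_N2 p
      unfold MA
      rw [h1, h2, h3, h4]
      ring
    simp only [e] at h
    exact h
  · have h := hSTO Ω κ G (fun q => Complex.normSq q.1) hΩ hκ hc hs hG INTB_smooth.1.contDiffOn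
    have e : ∀ (F : ℂ × ℂ → ℝ) (p : ℂ × ℂ), MA F (fun q => Complex.normSq q.1) p = lev F p (0, 1) := by
      intro F p
      obtain ⟨h1, h2, h3, h4⟩ := INTB_N1 p
      unfold MA
      rw [h1, h2, h3, h4]
      ring
    simp only [e] at h
    exact h

lemma INTB_kap (f g : ℂ → ℝ) (hf : ContDiff ℝ ∞ f) (hg : ContDiff ℝ ∞ g) (hfs : tsupport f ⊆ ball 0 1)
    (hgs : tsupport g ⊆ ball 0 1) : ContDiff ℝ ∞ (fun p : ℂ × ℂ => f p.1 * g p.2) ∧
    HasCompactSupport (fun p : ℂ × ℂ => f p.1 * g p.2) ∧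
    tsupport (fun p : ℂ × ℂ => f p.1 * g p.2) ⊆ tsupport f ×ˢ tsupport g := by
  have hsub : tsupport (fun p : ℂ × ℂ => f p.1 * g p.2) ⊆ tsupport f ×ˢ tsupport g := by
    apply closure_minimal _ ((isClosed_tsupport f).prod (isClosed_tsupport g))
    intro p hp
    rw [Function.mem_support] at hp
    exact ⟨subset_tsupport f (left_ne_zero_of_mul hp), subset_tsupport g (right_ne_zero_of_mul hp)⟩
  have hcf : IsCompact (tsupport f) :=
    (isCompact_closedBall (0 : ℂ) 1).of_isClosed_subset (isClosed_tsupport f) (hfs.trans ball_subset_closedBall)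
  have hcg : IsCompact (tsupport g) :=
    (isCompact_closedBall (0 : ℂ) 1).of_isClosed_subset (isClosed_tsupport g) (hgs.trans ball_subset_closedBall)
  exact ⟨(hf.comp contDiff_fst).mul (hg.comp contDiff_snd),
    (hcf.prod hcg).of_isClosed_subset (isClosed_tsupport _) hsub, hsub⟩

lemma INTB_lev0 (κ : ℂ × ℂ → ℝ) (hκ : ContDiff ℝ ∞ κ) (p : ℂ × ℂ) (hp : p ∉ tsupport κ) (a : ℂ × ℂ) :
    lev κ p a = 0 := by
  rw [INTB_hess κ p a (hκ.contDiffAt.of_le INTB_two)]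
  have h1 : κ =ᶠ[𝓝 p] (fun _ => 0) := notMem_tsupport_iff_eventuallyEq.mp hp
  have h2 : fderiv ℝ κ =ᶠ[𝓝 p] fun _ => 0 := by
    have h3 := h1.fderiv (𝕜 := ℝ)
    have h4 : fderiv ℝ (fun _ : ℂ × ℂ => (0 : ℝ)) = fun _ => 0 := by
      funext x
      simp
    rw [h4] at h3
    exact h3
  rw [h2.fderiv_eq]
  simp

lemma INTB_bound (κ : ℂ × ℂ → ℝ) (hκ : ContDiff ℝ ∞ κ) (hc : HasCompactSupport κ) (a : ℂ × ℂ) :
    Continuous (fun p => lev κ p a) ∧ HasCompactSupport (fun p => lev κ p a) ∧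
    ∃ M : ℝ, 0 ≤ M ∧ ∀ p, |lev κ p a| ≤ M := by
  have h1 : Continuous (fun p => lev κ p a) := by
    rw [← continuousOn_univ]
    exact INTB_cont κ univ isOpen_univ hκ.contDiffOn a
  have h2 : HasCompactSupport (fun p => lev κ p a) :=
    HasCompactSupport.intro hc.isCompact (fun p hp => INTB_lev0 κ hκ p hp a)
  refine ⟨h1, h2, ?_⟩
  obtain ⟨C, hC⟩ := h2.exists_bound_of_continuous h1
  have hC0 : 0 ≤ C := (norm_nonneg _).trans (hC 0)
  exact ⟨C, hC0, fun p => by simpa using hC p⟩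

lemma INTB_nqpos (v : E3) (hv : v ≠ 0) : 0 < nq v := by
  unfold nq
  obtain ⟨i, hi⟩ : ∃ i, v i ≠ 0 := by
    by_contra hcon
    push Not at hcon
    exact hv (funext hcon)
  exact Finset.sum_pos' (fun j _ => Complex.normSq_nonneg _) ⟨i, Finset.mem_univ i, Complex.normSq_pos.mpr hi⟩

lemma INTB_ne (v : E3) (hv : 0 < nq v) : v ≠ 0 := by
  intro h
  rw [h] at hv
  simp [nq] at hv

lemma INTB_lagr (v w : E3) : nq (crs v w) ≤ nq v * nq w := by
  have h : nq v * nq w - nq (crs v w) = Complex.normSq (∑ i, v i * (starRingEnd ℂ) (w i)) := by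
    simp only [nq, crs, Fin.sum_univ_three, Complex.normSq_apply, Complex.add_re, Complex.add_im, Complex.mul_re,
      Complex.mul_im, Complex.sub_re, Complex.sub_im, Complex.conj_re, Complex.conj_im, Matrix.cons_val_zero,
      Matrix.cons_val_one, Matrix.cons_val]
    ring
  have h2 := Complex.normSq_nonneg (∑ i, v i * (starRingEnd ℂ) (w i))
  linarith

lemma INTB_smlog {V : Type} [NormedAddCommGroup V] [NormedSpace ℝ V] (F : V → E3) (S : Set V)
    (hF : ∀ i, ContDiffOn ℝ ∞ (fun v => F v i) S) (h0 : ∀ v ∈ S, F v ≠ 0) :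
    ContDiffOn ℝ ∞ (fun v => (1 / 2) * Real.log (nq (F v))) S := by
  apply ContDiffOn.mul contDiffOn_const
  apply ContDiffOn.log
  · unfold nq
    apply ContDiffOn.sum
    intro i _
    have h1 : (fun v => Complex.normSq (F v i)) = fun v => (F v i).re * (F v i).re + (F v i).im * (F v i).im := by
      funext v
      exact Complex.normSq_apply _
    rw [h1]
    have h2 : ContDiffOn ℝ ∞ (fun v => (F v i).re) S := Complex.reCLM.contDiff.comp_contDiffOn (hF i)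
    have h3 : ContDiffOn ℝ ∞ (fun v => (F v i).im) S := Complex.imCLM.contDiff.comp_contDiffOn (hF i)
    exact (h2.mul h2).add (h3.mul h3)
  · intro v hv
    exact (INTB_nqpos _ (h0 v hv)).ne'

lemma INTB_hol (Φ : ℂ → E3) (hΦ : DifferentiableOn ℂ Φ (ball 0 1)) (i : Fin 3) :
    ContDiffOn ℝ ∞ (fun z => Φ z i) (ball 0 1) := by
  have h1 : ContDiffOn ℂ ∞ Φ (ball 0 1) := hΦ.contDiffOn isOpen_ball
  have h2 : ContDiffOn ℝ ∞ Φ (ball 0 1) := h1.restrict_scalars ℝ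
  exact (contDiffOn_pi.mp h2) i

lemma INTB_LLs (Φ Ψ : ℂ → E3) (hΦ : DifferentiableOn ℂ Φ (ball 0 1)) (hΨ : DifferentiableOn ℂ Ψ (ball 0 1))
    (h0 : ∀ z ∈ ball (0 : ℂ) 1, ∀ z' ∈ ball (0 : ℂ) 1, crs (Φ z) (Ψ z') ≠ 0) :
    ContDiffOn ℝ ∞ (LL Φ Ψ) (ball 0 1 ×ˢ ball 0 1) := by
  have h1 : ∀ i, ContDiffOn ℝ ∞ (fun p : ℂ × ℂ => Φ p.1 i) (ball 0 1 ×ˢ ball 0 1) := fun i =>
    (INTB_hol Φ hΦ i).comp contDiff_fst.contDiffOn (fun p hp => hp.1)
  have h2 : ∀ i, ContDiffOn ℝ ∞ (fun p : ℂ × ℂ => Ψ p.2 i) (ball 0 1 ×ˢ ball 0 1) := fun i =>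
    (INTB_hol Ψ hΨ i).comp contDiff_snd.contDiffOn (fun p hp => hp.2)
  unfold LL
  apply INTB_smlog (fun p : ℂ × ℂ => crs (Φ p.1) (Ψ p.2))
  · intro i
    unfold crs
    fin_cases i
    · exact ((h1 1).mul (h2 2)).sub ((h1 2).mul (h2 1))
    · exact ((h1 2).mul (h2 0)).sub ((h1 0).mul (h2 2))
    · exact ((h1 0).mul (h2 1)).sub ((h1 1).mul (h2 0))
  · intro p hp
    exact h0 p.1 hp.1 p.2 hp.2

/-- a continuous function after multiplication with a cut-off -/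
lemma INTB_integrable (κ f : ℂ × ℂ → ℝ) (Ω : Set (ℂ × ℂ)) (hΩ : IsOpen Ω) (hκ : Continuous κ)
    (hc : HasCompactSupport κ) (hs : tsupport κ ⊆ Ω) (hf : ContinuousOn f Ω) : Integrable (fun p => κ p * f p) := by
  have hs2 : tsupport (fun p => κ p * f p) ⊆ tsupport κ := closure_mono (fun p hp => left_ne_zero_of_mul hp)
  apply Continuous.integrable_of_hasCompactSupport
  · exact ContinuousOn.continuous_of_tsupport_subset (hκ.continuousOn.mul hf) hΩ (hs2.trans hs)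
  · exact hc.mul_right

lemma INTB_MAc (A B : ℂ × ℂ → ℝ) (Ω : Set (ℂ × ℂ)) (hΩ : IsOpen Ω) (hA : ContDiffOn ℝ ∞ A Ω)
    (hB : ContDiffOn ℝ ∞ B Ω) : ContinuousOn (fun p => MA A B p) Ω := by
  have a := fun v => INTB_cont A Ω hΩ hA v
  have b := fun v => INTB_cont B Ω hΩ hB v
  unfold MA lre lim
  exact (((a _).mul (b _)).add ((a _).mul (b _))).sub (continuousOn_const.mul
    (((continuousOn_const.mul (((a _).sub (a _)).sub (a _))).mul
      (continuousOn_const.mul (((b _).sub (b _)).sub (b _)))).add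
    ((continuousOn_const.mul (((a _).sub (a _)).sub (a _))).mul
      (continuousOn_const.mul (((b _).sub (b _)).sub (b _))))))

lemma INTB_levk (f g : ℂ → ℝ) (hf : ContDiff ℝ ∞ f) (p : ℂ × ℂ) :
    lev (fun q : ℂ × ℂ => f q.1 * g q.2) p (1, 0) = lap f p.1 * g p.2 := by
  have hf2 : ContDiffAt ℝ 2 f p.1 := hf.contDiffAt.of_le INTB_two
  have h1 := INTB_lapmul (g p.2) (fun t : ℂ => f (p.1 + t * 1)) 0 (INTB_line1 f p.1 1 hf2)
  rw [INTB_lapc f p.1 1 hf2 (by simp)] at h1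
  simp only [map_one, one_mul] at h1
  rw [← h1]
  unfold lev
  congr 1
  funext t
  simp

/-- integration by parts in one variable -/
lemma INTB_1d (hSTO : STO_stmt) (χ χ₁ a : ℂ → ℝ) (hχ : ContDiff ℝ ∞ χ) (hχs : tsupport χ ⊆ ball 0 1)
    (h1 : ContDiff ℝ ∞ χ₁) (h1s : tsupport χ₁ ⊆ ball 0 1) (h1i : 0 < ∫ z, χ₁ z) (ha : ContDiffOn ℝ ∞ a (ball 0 1)) :
    ∫ z, χ z * lap a z = ∫ z, lap χ z * a z := by
  obtain ⟨k1, k2, k3⟩ := INTB_kap χ χ₁ hχ h1 hχs h1s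
  have hΩ : IsOpen (ball (0 : ℂ) 1 ×ˢ ball (0 : ℂ) 1) := isOpen_ball.prod isOpen_ball
  have hG : ContDiffOn ℝ ∞ (fun q : ℂ × ℂ => a q.1 + (fun _ : ℂ => (0 : ℝ)) q.2) (ball (0 : ℂ) 1 ×ˢ ball (0 : ℂ) 1) :=
    (ha.comp contDiff_fst.contDiffOn (fun p hp => hp.1)).add contDiffOn_const
  have h := (INTB_ibp hSTO _ _ _ hΩ k1 k2 (k3.trans (prod_mono hχs h1s)) hG).1
  have e1 : ∀ p : ℂ × ℂ, χ p.1 * χ₁ p.2 * lev (fun q : ℂ × ℂ => a q.1 + (fun _ : ℂ => (0 : ℝ)) q.2) p (1, 0) =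
      (χ p.1 * lap a p.1) * χ₁ p.2 := by
    intro p
    by_cases hp : p.1 ∈ ball (0 : ℂ) 1
    · have hap : ContDiffAt ℝ 2 a p.1 := (ha.contDiffAt (isOpen_ball.mem_nhds hp)).of_le INTB_two
      rw [(INTB_A a (fun _ => 0) p hap contDiffAt_const).1]
      ring
    · have h0 : χ p.1 = 0 := image_eq_zero_of_notMem_tsupport (fun hh => hp (hχs hh))
      rw [h0]
      ring
  have e2 : ∀ p : ℂ × ℂ, (a p.1 + (fun _ : ℂ => (0 : ℝ)) p.2) * lev (fun q : ℂ × ℂ => χ q.1 * χ₁ q.2) p (1, 0) =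
      (lap χ p.1 * a p.1) * χ₁ p.2 := by
    intro p
    rw [INTB_levk χ χ₁ hχ p]
    ring
  simp only [e1, e2] at h
  rw [Measure.volume_eq_prod, integral_prod_mul (fun z => χ z * lap a z) χ₁,
    integral_prod_mul (fun z => lap χ z * a z) χ₁] at h
  exact mul_right_cancel₀ h1i.ne' h

lemma INTB_cut (χ : ℂ → ℝ) (hχs : tsupport χ ⊆ ball 0 1) : ∃ χ₁ : ℂ → ℝ, ContDiff ℝ ∞ χ₁ ∧
    tsupport χ₁ ⊆ ball 0 1 ∧ (∀ z, 0 ≤ χ₁ z) ∧ (∀ z ∈ tsupport χ, χ₁ z = 1) ∧ 0 < ∫ z, χ₁ z := by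
  have hc : IsCompact (tsupport χ) :=
    (isCompact_closedBall (0 : ℂ) 1).of_isClosed_subset (isClosed_tsupport χ) (hχs.trans ball_subset_closedBall)
  obtain ⟨r, hr0, hr1, hr⟩ : ∃ r : ℝ, 0 < r ∧ r < 1 ∧ tsupport χ ⊆ closedBall 0 r := by
    by_cases hne : (tsupport χ).Nonempty
    · obtain ⟨z0, hz0, hmax⟩ := hc.exists_isMaxOn hne continuous_norm.continuousOn
      have h1 : ‖z0‖ < 1 := by simpa using hχs hz0
      have h2 := norm_nonneg z0
      refine ⟨(‖z0‖ + 1) / 2, by linarith, by linarith, fun z hz => ?_⟩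
      have h3 : ‖z‖ ≤ ‖z0‖ := hmax hz
      rw [mem_closedBall_zero_iff]
      linarith
    · rw [Set.not_nonempty_iff_eq_empty] at hne
      exact ⟨1 / 2, by norm_num, by norm_num, by rw [hne]; exact empty_subset _⟩
  let bm : ContDiffBump (0 : ℂ) := ⟨r, (1 + r) / 2, hr0, by linarith⟩
  refine ⟨bm, bm.contDiff, ?_, fun z => bm.nonneg, fun z hz => bm.one_of_mem_closedBall (hr hz), bm.integral_pos⟩
  rw [bm.tsupport_eq]
  apply closedBall_subset_ball
  show (1 + r) / 2 < 1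
  linarith

theorem INTB (hSTO : STO_stmt) (hINTM : INTM_stmt) : INTB_stmt := by
  intro χ hχ hχs hχ0
  obtain ⟨χ₁, h1s, h1t, h10, h11, h1i⟩ := INTB_cut χ hχs
  obtain ⟨k1, k2, k3⟩ := INTB_kap χ χ hχ hχ hχs hχs
  obtain ⟨m1, m2, m3⟩ := INTB_kap χ₁ χ₁ h1s h1s h1t h1t
  obtain ⟨-, -, M1, hM10, hM1⟩ := INTB_bound _ k1 k2 (1, 0)
  obtain ⟨-, -, M2, hM20, hM2⟩ := INTB_bound _ k1 k2 (0, 1)
  obtain ⟨-, -, M3, hM30, hM3⟩ := INTB_bound _ k1 k2 (1, 1)
  obtain ⟨-, -, M4, hM40, hM4⟩ := INTB_bound _ k1 k2 (1, Complex.I)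
  obtain ⟨c1c, c1s, -⟩ := INTB_bound _ m1 m2 (1, 0)
  obtain ⟨c2c, c2s, -⟩ := INTB_bound _ m1 m2 (0, 1)
  have hΩ : IsOpen (ball (0 : ℂ) 1 ×ˢ ball (0 : ℂ) 1) := isOpen_ball.prod isOpen_ball
  obtain ⟨κ, hκ⟩ : ∃ κ : ℂ × ℂ → ℝ, κ = fun p => χ p.1 * χ p.2 := ⟨_, rfl⟩
  obtain ⟨κ₁, hκ₁⟩ : ∃ κ₁ : ℂ × ℂ → ℝ, κ₁ = fun p => χ₁ p.1 * χ₁ p.2 := ⟨_, rfl⟩
  rw [← hκ] at k1 k2 k3 hM1 hM2 hM3 hM4
  rw [← hκ₁] at m1 m2 m3 c1c c1s c2c c2s
  obtain ⟨M, hM⟩ : ∃ M, M = M1 + M2 + M3 + M4 := ⟨_, rfl⟩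
  obtain ⟨J1, hJ1⟩ : ∃ J, J = ∫ p, |lev κ₁ p (1, 0)| := ⟨_, rfl⟩
  obtain ⟨J2, hJ2⟩ : ∃ J, J = ∫ p, |lev κ₁ p (0, 1)| := ⟨_, rfl⟩
  have hJ10 : 0 ≤ J1 := by rw [hJ1]; exact integral_nonneg (fun _ => abs_nonneg _)
  have hJ20 : 0 ≤ J2 := by rw [hJ2]; exact integral_nonneg (fun _ => abs_nonneg _)
  have hM0 : 0 ≤ M := by rw [hM]; positivity
  refine ⟨16 * M * (J1 + J2) + 1, by positivity, ?_⟩
  intro Φ Ψ s D hs hs1 hD hΦ hΨ hΦ0 hΨ0 hΦD hΨD hsep
  obtain ⟨l, hl⟩ : ∃ l, l = Real.log (1 / s) := ⟨_, rfl⟩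
  have hl0 : 0 ≤ l := by
    rw [hl]
    apply Real.log_nonneg
    rw [le_div_iff₀ hs]
    linarith
  have hcr : ∀ z ∈ ball (0 : ℂ) 1, ∀ z' ∈ ball (0 : ℂ) 1, crs (Φ z) (Ψ z') ≠ 0 := by
    intro z hz z' hz'
    apply INTB_ne
    have h1 := INTB_nqpos _ (hΦ0 z hz)
    have h2 := INTB_nqpos _ (hΨ0 z' hz')
    have h3 := hsep z hz z' hz'
    have h4 : 0 < s ^ 2 * (nq (Φ z) * nq (Ψ z')) := by positivity
    linarith
  have hcr' : ∀ z ∈ ball (0 : ℂ) 1, ∀ z' ∈ ball (0 : ℂ) 1, crs (Ψ z) (Φ z') ≠ 0 := by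
    intro z hz z' hz' h
    apply hcr z' hz' z hz
    have h2 : crs (Φ z') (Ψ z) = -crs (Ψ z) (Φ z') := by
      unfold crs
      funext i
      fin_cases i <;> simp <;> ring
    rw [h2, h, neg_zero]
  obtain ⟨a, haa⟩ : ∃ a : ℂ → ℝ, a = fun z => (1 / 2) * Real.log (nq (Φ z)) := ⟨_, rfl⟩
  obtain ⟨b, hbb⟩ : ∃ b : ℂ → ℝ, b = fun z => (1 / 2) * Real.log (nq (Ψ z)) := ⟨_, rfl⟩
  obtain ⟨L, hL⟩ : ∃ L : ℂ × ℂ → ℝ, L = LL Φ Ψ := ⟨_, rfl⟩
  have has : ContDiffOn ℝ ∞ a (ball 0 1) := by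
    rw [haa]
    exact INTB_smlog Φ _ (INTB_hol Φ hΦ) hΦ0
  have hbs : ContDiffOn ℝ ∞ b (ball 0 1) := by
    rw [hbb]
    exact INTB_smlog Ψ _ (INTB_hol Ψ hΨ) hΨ0
  have hLs : ContDiffOn ℝ ∞ L (ball 0 1 ×ˢ ball 0 1) := by
    rw [hL]
    exact INTB_LLs Φ Ψ hΦ hΨ hcr
  obtain ⟨A, hA⟩ : ∃ A : ℂ × ℂ → ℝ, A = fun q => a q.1 + b q.2 := ⟨_, rfl⟩
  have hAs : ContDiffOn ℝ ∞ A (ball 0 1 ×ˢ ball 0 1) := by
    rw [hA]
    exact (has.comp contDiff_fst.contDiffOn (fun p hp => hp.1)).add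
      (hbs.comp contDiff_snd.contDiffOn (fun p hp => hp.2))
  obtain ⟨B, hB⟩ : ∃ B : ℂ × ℂ → ℝ, B = fun q => L q - A q := ⟨_, rfl⟩
  obtain ⟨G, hG⟩ : ∃ G : ℂ × ℂ → ℝ, G = fun q => L q + A q := ⟨_, rfl⟩
  have hBs : ContDiffOn ℝ ∞ B (ball 0 1 ×ˢ ball 0 1) := by
    rw [hB]
    exact hLs.sub hAs
  have hGs : ContDiffOn ℝ ∞ G (ball 0 1 ×ˢ ball 0 1) := by
    rw [hG]
    exact hLs.add hAs
  have hat : ∀ (f : ℂ × ℂ → ℝ), ContDiffOn ℝ ∞ f (ball 0 1 ×ˢ ball 0 1) → ∀ p ∈ ball (0 : ℂ) 1 ×ˢ ball (0 : ℂ) 1,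
      ContDiffAt ℝ 2 f p := fun f hf p hp => (hf.contDiffAt (hΩ.mem_nhds hp)).of_le INTB_two
  have hat1 : ∀ (f : ℂ → ℝ), ContDiffOn ℝ ∞ f (ball 0 1) → ∀ z ∈ ball (0 : ℂ) 1,
      ContDiffAt ℝ 2 f z := fun f hf p hp => (hf.contDiffAt (isOpen_ball.mem_nhds hp)).of_le INTB_two
  have hlB : ∀ p ∈ ball (0 : ℂ) 1 ×ˢ ball (0 : ℂ) 1, ∀ x, lev B p x = lev L p x - lev A p x := by
    intro p hp x
    rw [hB]
    exact INTB_levsub L A p x (hat L hLs p hp) (hat A hAs p hp)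
  have hlG : ∀ p ∈ ball (0 : ℂ) 1 ×ˢ ball (0 : ℂ) 1, ∀ x, lev G p x = lev L p x + lev A p x := by
    intro p hp x
    rw [hG]
    exact INTB_levadd L A p x (hat L hLs p hp) (hat A hAs p hp)
  have hlA : ∀ p ∈ ball (0 : ℂ) 1 ×ˢ ball (0 : ℂ) 1, lev A p (1, 0) = lap a p.1 ∧ lev A p (0, 1) = lap b p.2 ∧
      lre A p = 0 ∧ lim A p = 0 := by
    intro p hp
    rw [hA]
    exact INTB_A a b p (hat1 a has p.1 hp.1) (hat1 b hbs p.2 hp.2)
  have hpos : ∀ p ∈ ball (0 : ℂ) 1 ×ˢ ball (0 : ℂ) 1, 0 ≤ lap a p.1 ∧ 0 ≤ lap b p.2 ∧ 0 ≤ lev L p (1, 0) ∧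
      0 ≤ lev L p (0, 1) ∧ lre L p ^ 2 + lim L p ^ 2 ≤ lev L p (1, 0) * lev L p (0, 1) := by
    intro p hp
    obtain ⟨-, h2, h3, h4, h5⟩ := hINTM Φ Ψ hΦ hΨ p.1 hp.1 p.2 hp.2 (hcr p.1 hp.1 p.2 hp.2)
    obtain ⟨-, g2, -, -, -⟩ := hINTM Ψ Φ hΨ hΦ p.2 hp.2 p.1 hp.1 (hcr' p.2 hp.2 p.1 hp.1)
    have hnn : ∀ v : E3, 0 ≤ nq v := fun v => Finset.sum_nonneg (fun _ _ => Complex.normSq_nonneg _)
    rw [← haa] at h2
    rw [← hbb] at g2
    rw [← hL] at h3 h4 h5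
    refine ⟨?_, ?_, h3, h4, h5⟩
    · rw [h2]
      have := hnn (crs (Φ p.1) (deriv Φ p.1))
      positivity
    · rw [g2]
      have := hnn (crs (Ψ p.2) (deriv Ψ p.2))
      positivity
  -- bounds of B and G
  have hBG : ∀ p ∈ ball (0 : ℂ) 1 ×ˢ ball (0 : ℂ) 1, |B p| ≤ l ∧ |G p| ≤ 4 * D + l := by
    intro p hp
    have h1 := INTB_nqpos _ (hΦ0 p.1 hp.1)
    have h2 := INTB_nqpos _ (hΨ0 p.2 hp.2)
    have h3 := INTB_nqpos _ (hcr p.1 hp.1 p.2 hp.2)
    have h4 := Real.log_le_log h3 (INTB_lagr (Φ p.1) (Ψ p.2))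
    have h5 := Real.log_le_log (by positivity) (hsep p.1 hp.1 p.2 hp.2)
    rw [Real.log_mul h1.ne' h2.ne'] at h4
    rw [Real.log_mul (by positivity) (by positivity), Real.log_mul h1.ne' h2.ne', Real.log_pow] at h5
    have h6 : l = -Real.log s := by rw [hl, one_div, Real.log_inv]
    have hLp : L p = (1 / 2) * Real.log (nq (crs (Φ p.1) (Ψ p.2))) := by rw [hL]; rfl
    have hAp : A p = (1 / 2) * Real.log (nq (Φ p.1)) + (1 / 2) * Real.log (nq (Ψ p.2)) := by rw [hA, haa, hbb]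
    have hBp : B p = L p - A p := by rw [hB]
    have hGp : G p = L p + A p := by rw [hG]
    have h7 := abs_le.mp (hΦD p.1 hp.1)
    have h8 := abs_le.mp (hΨD p.2 hp.2)
    push_cast at h5
    constructor
    · rw [abs_le, hBp, hLp, hAp]
      constructor <;> linarith
    · rw [abs_le, hGp, hLp, hAp]
      constructor <;> linarith [h7.1, h7.2, h8.1, h8.2]
  have hκs : tsupport κ ⊆ ball (0 : ℂ) 1 ×ˢ ball (0 : ℂ) 1 := k3.trans (prod_mono hχs hχs)
  have hκ₁s : tsupport κ₁ ⊆ ball (0 : ℂ) 1 ×ˢ ball (0 : ℂ) 1 := m3.trans (prod_mono h1t h1t)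
  have hκ0 : ∀ p, p ∉ ball (0 : ℂ) 1 ×ˢ ball (0 : ℂ) 1 → κ p = 0 := fun p hp =>
    image_eq_zero_of_notMem_tsupport (fun h => hp (hκs h))
  have hκ₁0 : ∀ p, p ∉ ball (0 : ℂ) 1 ×ˢ ball (0 : ℂ) 1 → κ₁ p = 0 := fun p hp =>
    image_eq_zero_of_notMem_tsupport (fun h => hp (hκ₁s h))
  -- step 1
  have s1 : (∫ p, κ p * MA L L p) - ∫ p, κ p * MA A A p = ∫ p, κ p * MA B G p := by
    rw [← integral_sub (INTB_integrable κ _ _ hΩ k1.continuous k2 hκs (INTB_MAc L L _ hΩ hLs hLs))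
      (INTB_integrable κ _ _ hΩ k1.continuous k2 hκs (INTB_MAc A A _ hΩ hAs hAs))]
    congr 1
    funext p
    by_cases hp : p ∈ ball (0 : ℂ) 1 ×ˢ ball (0 : ℂ) 1
    · have h1 := hlB p hp
      have h2 := hlG p hp
      simp only [MA, lre, lim, h1, h2]
      ring
    · rw [hκ0 p hp]
      ring
  -- step 2
  have s2 : ∫ p, κ p * MA A A p = 2 * (∫ z, lap χ z * a z) * ∫ z, lap χ z * b z := by
    have e1 : ∀ p, κ p * MA A A p = (χ p.1 * lap a p.1) * (2 * (χ p.2 * lap b p.2)) := by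
      intro p
      by_cases hp : p ∈ ball (0 : ℂ) 1 ×ˢ ball (0 : ℂ) 1
      · obtain ⟨h1, h2, h3, h4⟩ := hlA p hp
        rw [hκ]
        unfold MA
        rw [h1, h2, h3, h4]
        ring
      · rw [hκ0 p hp]
        have h5 : χ p.1 * χ p.2 = 0 := by
          have := hκ0 p hp
          rw [hκ] at this
          exact this
        linear_combination (-2 * lap a p.1 * lap b p.2) * h5
    simp only [e1]
    rw [Measure.volume_eq_prod, integral_prod_mul (fun z => χ z * lap a z) (fun z => 2 * (χ z * lap b z)),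
      integral_const_mul, INTB_1d hSTO χ χ₁ a hχ hχs h1s h1t h1i has,
      INTB_1d hSTO χ χ₁ b hχ hχs h1s h1t h1i hbs]
    ring
  -- step 3
  have s3 := hSTO _ κ B G hΩ k1 k2 hκs hBs hGs
  -- step 4
  have s4 : ∀ p, |B p * MA κ G p| ≤ 4 * M * l * (κ₁ p * lev G p (1, 0) + κ₁ p * lev G p (0, 1)) := by
    intro p
    by_cases hp : p ∈ ball (0 : ℂ) 1 ×ˢ ball (0 : ℂ) 1
    · obtain ⟨hB1, -⟩ := hBG p hp
      obtain ⟨ha0, hb0, hX, hY, hCS⟩ := hpos p hp
      obtain ⟨e1, e2, e3, e4⟩ := hlA p hp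
      have g1 := hlG p hp (1, 0)
      have g2 := hlG p hp (0, 1)
      rw [e1] at g1
      rw [e2] at g2
      have hG10 : 0 ≤ lev G p (1, 0) := by rw [g1]; positivity
      have hG20 : 0 ≤ lev G p (0, 1) := by rw [g2]; positivity
      have hk10 : 0 ≤ κ₁ p := by
        rw [hκ₁]
        exact mul_nonneg (h10 _) (h10 _)
      by_cases hpt : p ∈ tsupport κ
      · have hone : κ₁ p = 1 := by
          rw [hκ₁]
          have h5 := k3 hpt
          show χ₁ p.1 * χ₁ p.2 = 1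
          rw [h11 p.1 h5.1, h11 p.2 h5.2, one_mul]
        have g3 : lre G p = lre L p := by
          have h6 : lre A p = 0 := e3
          unfold lre at h6 ⊢
          rw [hlG p hp, hlG p hp, hlG p hp]
          linarith
        have g4 : lim G p = lim L p := by
          have h6 : lim A p = 0 := e4
          unfold lim at h6 ⊢
          rw [hlG p hp, hlG p hp, hlG p hp]
          linarith
        have hMM : |lev κ p (1, 0)| ≤ M ∧ |lev κ p (0, 1)| ≤ M ∧ |lre κ p| ≤ (3 / 2) * M ∧ |lim κ p| ≤ (3 / 2) * M := by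
          have q1 := hM1 p
          have q2 := hM2 p
          have q3 := hM3 p
          have q4 := hM4 p
          refine ⟨by linarith, by linarith, ?_, ?_⟩
          · unfold lre
            rw [abs_le] at q1 q2 q3 ⊢
            constructor <;> linarith [q1.1, q1.2, q2.1, q2.2, q3.1, q3.2]
          · unfold lim
            rw [abs_le] at q1 q2 q4 ⊢
            constructor <;> linarith [q1.1, q1.2, q2.1, q2.2, q4.1, q4.2]
        obtain ⟨q1, q2, q3, q4⟩ := hMM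
        have hS : ∀ x : ℝ, x ^ 2 ≤ lev L p (1, 0) * lev L p (0, 1) → |x| ≤ (lev G p (1, 0) + lev G p (0, 1)) / 2 := by
          intro x hx
          apply abs_le_of_sq_le_sq _ (by positivity)
          have h7 : lev L p (1, 0) * lev L p (0, 1) ≤ lev G p (1, 0) * lev G p (0, 1) := by
            apply mul_le_mul _ _ hY hG10
            · rw [g1]; linarith
            · rw [g2]; linarith
          nlinarith [sq_nonneg (lev G p (1, 0) - lev G p (0, 1))]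
        have hr := hS (lre L p) (by nlinarith [sq_nonneg (lim L p)])
        have hi := hS (lim L p) (by nlinarith [sq_nonneg (lre L p)])
        have hMAb : |MA κ G p| ≤ 4 * M * (lev G p (1, 0) + lev G p (0, 1)) := by
          unfold MA
          rw [g3, g4]
          have t1 : |lev κ p (1, 0) * lev G p (0, 1)| ≤ M * lev G p (0, 1) := by
            rw [abs_mul, abs_of_nonneg hG20]
            exact mul_le_mul_of_nonneg_right q1 hG20
          have t2 : |lev κ p (0, 1) * lev G p (1, 0)| ≤ M * lev G p (1, 0) := by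
            rw [abs_mul, abs_of_nonneg hG10]
            exact mul_le_mul_of_nonneg_right q2 hG10
          have t3 : |lre κ p * lre L p| ≤ (3 / 2) * M * ((lev G p (1, 0) + lev G p (0, 1)) / 2) := by
            rw [abs_mul]
            exact mul_le_mul q3 hr (abs_nonneg _) (by positivity)
          have t4 : |lim κ p * lim L p| ≤ (3 / 2) * M * ((lev G p (1, 0) + lev G p (0, 1)) / 2) := by
            rw [abs_mul]
            exact mul_le_mul q4 hi (abs_nonneg _) (by positivity)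
          rw [abs_le] at t1 t2 t3 t4 ⊢
          constructor <;> nlinarith [t1.1, t1.2, t2.1, t2.2, t3.1, t3.2, t4.1, t4.2]
        rw [abs_mul, hone]
        calc |B p| * |MA κ G p| ≤ l * (4 * M * (lev G p (1, 0) + lev G p (0, 1))) :=
              mul_le_mul hB1 hMAb (abs_nonneg _) hl0
          _ = 4 * M * l * (1 * lev G p (1, 0) + 1 * lev G p (0, 1)) := by ring
      · have h8 : MA κ G p = 0 := by
          unfold MA lre lim
          simp only [INTB_lev0 κ k1 p hpt]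
          ring
        rw [h8, mul_zero, abs_zero]
        positivity
    · have h8 : MA κ G p = 0 := by
        unfold MA lre lim
        simp only [INTB_lev0 κ k1 p (fun h => hp (hκs h))]
        ring
      rw [h8, hκ₁0 p hp, mul_zero, abs_zero]
      simp
  have i1 : Integrable (fun p => κ₁ p * lev G p (1, 0)) :=
    INTB_integrable κ₁ _ _ hΩ m1.continuous m2 hκ₁s (INTB_cont G _ hΩ hGs (1, 0))
  have i2 : Integrable (fun p => κ₁ p * lev G p (0, 1)) :=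
    INTB_integrable κ₁ _ _ hΩ m1.continuous m2 hκ₁s (INTB_cont G _ hΩ hGs (0, 1))
  obtain ⟨b1, b2⟩ := INTB_ibp hSTO _ κ₁ G hΩ m1 m2 hκ₁s hGs
  have s5 : ∀ x : ℂ × ℂ, Continuous (fun p => lev κ₁ p x) → HasCompactSupport (fun p => lev κ₁ p x) →
      ∫ p, G p * lev κ₁ p x ≤ (4 * D + l) * ∫ p, |lev κ₁ p x| := by
    intro x hx1 hx2
    rw [← integral_const_mul]
    have hint : Integrable (fun p => (4 * D + l) * |lev κ₁ p x|) :=
      ((hx1.integrable_of_hasCompactSupport hx2).abs).const_mul _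
    have h9 := norm_integral_le_of_norm_le (f := fun p => G p * lev κ₁ p x) hint (Eventually.of_forall (fun p => by
      rw [Real.norm_eq_abs, abs_mul]
      by_cases hp : p ∈ ball (0 : ℂ) 1 ×ˢ ball (0 : ℂ) 1
      · exact mul_le_mul_of_nonneg_right (hBG p hp).2 (abs_nonneg _)
      · rw [INTB_lev0 κ₁ m1 p (fun h => hp (hκ₁s h))]
        simp))
    exact (le_abs_self _).trans h9
  have s6 : |∫ p, B p * MA κ G p| ≤ 4 * M * l * ((4 * D + l) * J1 + (4 * D + l) * J2) := by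
    have h9 := norm_integral_le_of_norm_le (f := fun p => B p * MA κ G p) ((i1.add i2).const_mul (4 * M * l))
      (Eventually.of_forall (fun p => s4 p))
    have h10' : ∫ p, (4 * M * l) * ((fun p => κ₁ p * lev G p (1, 0)) + fun p => κ₁ p * lev G p (0, 1)) p =
        4 * M * l * ((∫ p, G p * lev κ₁ p (1, 0)) + ∫ p, G p * lev κ₁ p (0, 1)) := by
      rw [integral_const_mul, integral_add' i1 i2, b1, b2]
    rw [h10'] at h9
    refine h9.trans ?_
    apply mul_le_mul_of_nonneg_left _ (by positivity)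
    have h12 := s5 (1, 0) c1c c1s
    have h13 := s5 (0, 1) c2c c2s
    rw [← hJ1] at h12
    rw [← hJ2] at h13
    linarith
  have s7 : (∫ p : ℂ × ℂ, χ p.1 * χ p.2 * MA (LL Φ Ψ) (LL Φ Ψ) p) = ∫ p, κ p * MA L L p := by
    rw [hκ, hL]
  rw [s7, ← hl]
  have s8 : (∫ p, κ p * MA L L p) - 2 * (∫ z, lap χ z * ((1 / 2) * Real.log (nq (Φ z)))) *
      (∫ z', lap χ z' * ((1 / 2) * Real.log (nq (Ψ z')))) = ∫ p, B p * MA κ G p := by
    rw [← s3, ← s1, s2, haa, hbb]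
  rw [s8]
  refine s6.trans ?_
  have hJ : 0 ≤ J1 + J2 := by linarith
  have h14 : 4 * M * l * ((4 * D + l) * J1 + (4 * D + l) * J2) = 4 * M * (J1 + J2) * (l * (4 * D + l)) := by ring
  rw [h14]
  have h15 : l * (4 * D + l) ≤ 4 * ((1 + l) * (D + l)) := by nlinarith
  have h16 : 4 * M * (J1 + J2) * (l * (4 * D + l)) ≤ 4 * M * (J1 + J2) * (4 * ((1 + l) * (D + l))) :=
    mul_le_mul_of_nonneg_left h15 (by positivity)
  have h17 : 0 ≤ (1 + l) * (D + l) := by positivity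
  nlinarith

end Pool.Agent.P2
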